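import Pool.Agent.H33.HH.TC

/-!
# GA1: the sum over `γ`
-/

set_option autoImplicit false

open NumberField Complex Filter Topology MeasureTheory
open scoped ContDiff nonZeroDivisors Classical

namespace Pool.Agent.H55.HH

open Pool.Agent.H33.HH Pool.Agent.H28.RC Pool.Agent.H37.CV

theorem nm_pos' {K : Type} [Field K] [NumberField K] {I : Ideal (𝓞 K)} (h : I ≠ ⊥) :
    0 < nm I := by
  unfold nm
  have h0 : Ideal.absNorm I ≠ 0 := by
    rw [Ne, Ideal.absNorm_eq_zero_iff]; exact h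
  exact_mod_cast Nat.pos_of_ne_zero h0

theorem pf_GA1 (h1 : T_GSM) (h2 : T_GFS) (h3 : T_IDF) : T_GA1 := by
  intro K _ _ _ P W G H k j hSP hW hG hH hk hj
  obtain ⟨C1, hC1, h1'⟩ := h1 K P j hSP hj
  obtain ⟨C2, hC2, h2'⟩ := h2 W G H hW hG hH j
  refine ⟨C1 * C2, mul_nonneg hC1 hC2, ?_⟩
  intro y Q Z hy hZ hQ S hS b l hb hbP hl
  obtain ⟨hS0, hSP', hnm, h1S, hSy, -⟩ := h3 K P y hy S hS
  have hs : 0 < nS np S := by linarith
  have hnk : 0 < nm k := nm_pos' hk.1
  have hnl : 0 < nm l := nm_pos' hl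
  have hnb : 0 < nm b := nm_pos' hb
  have hnSP : 0 < nS np (SP K P) := by
    unfold nS
    refine Finset.prod_pos fun p _ => ?_
    exact nm_pos' p.2.2
  have hQ0 : 0 < Q := by nlinarith
  set R : ℝ := Real.sqrt (nm k * nm l * Q / nm b) with hRdef
  have hR0 : 0 < R := Real.sqrt_pos.2 (by positivity)
  have hR2 : R ^ 2 = nm k * nm l * Q / nm b := Real.sq_sqrt (by positivity)
  have hR2b : R ^ 2 * nm b = nm k * nm l * Q := by
    rw [hR2]; field_simp
  set M : ℝ := nm b / (nS np S * Z) with hMdef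
  have hM0 : 0 < M := by positivity
  obtain ⟨hF1, hF2, -, hF4⟩ := h2' R M hR0 hM0
  have hcond : nS np (SP K P) * (nS np S * nm k * nm l) ≤ R ^ 2 * nm b := by
    rw [hR2b]
    have : nS np (SP K P) * nS np S ≤ Q :=
      (mul_le_mul_of_nonneg_left hSy hnSP.le).trans hQ
    calc nS np (SP K P) * (nS np S * nm k * nm l) = (nS np (SP K P) * nS np S) * (nm k * nm l) := by
          ring
      _ ≤ Q * (nm k * nm l) := mul_le_mul_of_nonneg_right this (by positivity)
      _ = nm k * nm l * Q := by ring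
  have key := h1' y hy S hS b k l hb hbP hk hl R C2 (Fz W G H R M) hR0 hcond hF1 hF2 hF4
  have hFz : ∀ z : ℂ, Fz W G H R M ((z - 1) / R) = H (‖z‖ ^ 2) *
      G (‖z‖ ^ 2 * nm b / (nS np S * Z)) *
      w1 W (‖z - 1‖ ^ 2 * nm b / (nm k * nm l * Q)) := by
    intro z
    have hRc : (R : ℂ) ≠ 0 := by exact_mod_cast hR0.ne'
    have e1 : 1 + (R : ℂ) * ((z - 1) / R) = z := by
      rw [mul_div_cancel₀ _ hRc]; ring
    have e2 : ‖(z - 1) / (R : ℂ)‖ ^ 2 = ‖z - 1‖ ^ 2 * nm b / (nm k * nm l * Q) := by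
      rw [norm_div, div_pow, Complex.norm_real, Real.norm_eq_abs, abs_of_pos hR0, ← hR2b]
      field_simp
    have e3 : ‖z‖ ^ 2 * M = ‖z‖ ^ 2 * nm b / (nS np S * Z) := by
      rw [hMdef, mul_div_assoc]
    unfold Fz
    rw [e1, e2, e3]
  have hint : R ^ 2 * ∫ z, Fz W G H R M z = ∫ g : ℂ, H (‖g‖ ^ 2) *
      G (‖g‖ ^ 2 * nm b / (nS np S * Z)) *
        w1 W (‖g - 1‖ ^ 2 * nm b / (nm k * nm l * Q)) := by
    have e1 : (∫ g : ℂ, Fz W G H R M ((g - 1) / R)) = ∫ g : ℂ, Fz W G H R M (g / R) :=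
      integral_sub_right_eq_self (fun g : ℂ => Fz W G H R M (g / R)) 1
    have e2 : (∫ g : ℂ, Fz W G H R M (g / R)) = R ^ 2 * ∫ z, Fz W G H R M z := by
      have := MeasureTheory.Measure.integral_comp_inv_smul_of_nonneg (volume : Measure ℂ)
        (Fz W G H R M) hR0.le
      rw [Complex.finrank_real_complex, smul_eq_mul] at this
      rw [← this]
      refine integral_congr_ae (Filter.Eventually.of_forall fun g => ?_)
      show Fz W G H R M (g / R) = Fz W G H R M (R⁻¹ • g)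
      congr 1
      rw [Complex.real_smul, Complex.ofReal_inv]
      field_simp
    rw [← e2, ← e1]
    exact integral_congr_ae (Filter.Eventually.of_forall fun g => hFz g)
  have hpow : R ^ 2 * nm b / (nS np S * nm k * nm l) = Q / nS np S := by
    rw [hR2b]; field_simp
  rw [hint, hpow] at key
  have hsum : (∑' γ : Ga P (idS S) b (k * l), Fz W G H R M ((em K γ.1 - 1) / R)) =
      ∑' γ : Ga P (idS S) b (k * l), H (‖em K γ.1‖ ^ 2) *
      G (‖em K γ.1‖ ^ 2 * nm b / (nS np S * Z)) *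
      w1 W (‖em K γ.1 - 1‖ ^ 2 * nm b / (nm k * nm l * Q)) :=
    tsum_congr fun γ => hFz _
  rw [hsum] at key
  exact key

end Pool.Agent.H55.HH
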